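import Mathlib
import Pool.Agent.T9h56.HL.CliqueThm

set_option autoImplicit false

/-!
# Sets of shifts all of whose differences have the predicted number of prime pairs

Let `S(d) = 𝔖(d)` for even `d`, `S(d) = 0` for odd `d`, and `π₂(x, d)` the number of primes `p ≤ x` with `p - d` prime.
There is an absolute constant `K` for which the following holds.

1. Let `C` be real, `x` large, `A` any set of positive integers `≤ (log x)^C`, `0 < ε ≤ 1`, `m ≥ 1` (these may depend on
   `x`), and let `M ≥ 1` be a bound for `𝔖` on the differences of `A` (`M = K log log log x` always is one). If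
   `|A| ≥ (K M / ε)^(m - 1) log x`, at least `(ε / (K M))^(m (m - 1) / 2) |A|^m` of the vectors of `m` elements of `A` have
   different entries, ALL of whose differences `d` are even with `π₂(x, d) ≥ (1 - ε) 𝔖(d) x / (log x)²`.
2. At the range and the precision of the question: for all `η, ε > 0` and large `x` there are at least
   `(1/2 - η) log log x / log log log x` positive integers `≤ (log x)²`, all of whose differences `d` are even with
   `π₂(x, d) ≥ (1 - ε / (log log x)²) 𝔖(d) x / (log x)²`.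

Proof: by the quadratic form inequality of `DifferencesOfSets` and the sieve upper bound, the graph of the good differences
has at least `2 ρ |A'|²` edges in every set `A'` of at least `8 log x / ε` shifts, `ρ = ε / (K M)`; induction over `m` on
the neighbourhoods, with the power mean inequality, gives the number of cliques of a random graph of density `ρ`.
-/

namespace Pool.Agent.Results.MP_678834_nt.CliquesOfDifferences

open Finset Filter Topology

/-- The twin prime constant `C₂`. -/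
noncomputable def C2 : ℝ := ∏' p : {p : ℕ // p.Prime ∧ 2 < p}, (1 - 1 / (((p.1 : ℕ) : ℝ) - 1) ^ 2)

open Classical in
/-- `𝔖(d) = 2 C₂ ∏_{p ∣ d, p ≥ 3} (p - 1) / (p - 2)` for even `d`, `𝔖(d) = 0` for odd `d`. -/
noncomputable def S (d : ℕ) : ℝ :=
  if Even d then 2 * C2 * ∏ p ∈ d.primeFactors.filter (fun p : ℕ => 2 < p), (((p : ℝ) - 1) / ((p : ℝ) - 2))
  else 0

/-- `π₂(x, d)`, the number of primes `p ≤ x` with `p - d` prime. -/
noncomputable def pi2 (x : ℝ) (d : ℕ) : ℕ :=
  ((Icc 1 ⌊x⌋₊).filter (fun p : ℕ => p.Prime ∧ (p - d).Prime)).card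

/-- `d` is even and `π₂(x, d) ≥ (1 - ε) 𝔖(d) x / (log x)²` -/
def Good (x ε : ℝ) (d : ℕ) : Prop := Even d ∧ (1 - ε) * (S d * x / Real.log x ^ 2) ≤ (pi2 x d : ℝ)

open Classical in
/-- the vectors of `m` different elements of `A`, all differences of which are good -/
noncomputable def tuples (x ε : ℝ) (A : Finset ℕ) (m : ℕ) : Finset (Fin m → ℕ) :=
  (Fintype.piFinset (fun _ : Fin m => A)).filter (fun v => Function.Injective v ∧
    ∀ i j, v j < v i → Good x ε (v i - v j))

theorem result : ∃ K : ℝ, 1 ≤ K ∧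
    -- 1. sets of shifts
    (∀ C : ℝ, ∃ X : ℝ, ∀ x : ℝ, X ≤ x → ∀ A : Finset ℕ, (∀ a ∈ A, 1 ≤ a ∧ (a : ℝ) ≤ Real.log x ^ C) →
      ∀ M : ℝ, 1 ≤ M →
        ((∀ a ∈ A, ∀ b ∈ A, b < a → S (a - b) ≤ M) ∨ K * Real.log (Real.log (Real.log x)) ≤ M) →
      ∀ ε : ℝ, 0 < ε → ε ≤ 1 → ∀ m : ℕ, 1 ≤ m → (K * M / ε) ^ (m - 1) * Real.log x ≤ A.card →
        (ε / (K * M)) ^ (m.choose 2) * (A.card : ℝ) ^ m ≤ ((tuples x ε A m).card : ℝ)) ∧
    -- 2. the range and the precision of the question
    (∀ η ε : ℝ, 0 < η → 0 < ε → ∃ X : ℝ, ∀ x : ℝ, X ≤ x → ∃ D : Finset ℕ,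
      (∀ a ∈ D, 1 ≤ a ∧ (a : ℝ) ≤ Real.log x ^ 2) ∧
      (1 / 2 - η) * (Real.log (Real.log x) / Real.log (Real.log (Real.log x))) ≤ D.card ∧
      ∀ a ∈ D, ∀ b ∈ D, b < a → Good x (ε / Real.log (Real.log x) ^ 2) (a - b)) := by
  classical
  have hS : ∀ d, S d = Pool.Agent.T9h56.HL.Sing d := by
    intro d
    unfold S Pool.Agent.T9h56.HL.Sing
    rfl
  have hgood : ∀ x ε : ℝ, ∀ a b : ℕ, b < a → Pool.Agent.T9h56.HL.GoodPair x ε a b → Good x ε (a - b) := by
    intro x ε a b hab h
    obtain ⟨_, h2, h3⟩ := h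
    have e : ((a : ℤ) - b).natAbs = a - b := by omega
    rw [e] at h2 h3
    refine ⟨h2, ?_⟩
    rw [hS]
    exact h3
  have hL : Tendsto Real.log atTop atTop := Real.tendsto_log_atTop
  obtain ⟨K, hK, hcl⟩ := Pool.Agent.T9h56.HL.clique_sets
  refine ⟨K, hK, fun C => ?_, fun η ε hη hε => ?_⟩
  · have hev := (hcl ⌈C⌉₊).and (hL.eventually_ge_atTop 1)
    obtain ⟨X, hX⟩ := eventually_atTop.1 hev
    refine ⟨X, fun x hx A hA M hM hMS ε hε hε1 m hm hcard => ?_⟩
    obtain ⟨h1, h2⟩ := hX x hx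
    have hpow : Real.log x ^ C ≤ Real.log x ^ ⌈C⌉₊ := by
      rw [← Real.rpow_natCast (Real.log x) ⌈C⌉₊]
      exact Real.rpow_le_rpow_of_exponent_le h2 (Nat.le_ceil C)
    have h3 := h1 A (fun a ha => ⟨(hA a ha).1, (hA a ha).2.trans hpow⟩) M hM (by
      rcases hMS with h | h
      · left
        intro a ha b hb hab
        rw [← hS]
        exact h a ha b hb hab
      · exact Or.inr h) ε hε hε1 m hm hcard
    refine h3.trans ?_
    have hsub : Pool.Agent.T9h56.HL.cliques (Pool.Agent.T9h56.HL.GoodPair x ε) A m ⊆ tuples x ε A m := by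
      intro v hv
      rw [Pool.Agent.T9h56.HL.mem_cliques] at hv
      unfold tuples
      rw [mem_filter, Fintype.mem_piFinset]
      refine ⟨hv.1, ?_, ?_⟩
      · intro i j hij
        by_contra hne
        exact (hv.2 i j hne).1 hij
      · intro i j hij
        exact hgood x ε _ _ hij (hv.2 i j (fun h => by rw [h] at hij; exact lt_irrefl _ hij))
    exact_mod_cast card_le_card hsub
  · obtain ⟨X, hX⟩ := eventually_atTop.1 (Pool.Agent.T9h56.HL.clique_large η ε hη hε)
    refine ⟨X, fun x hx => ?_⟩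
    obtain ⟨D, h1, h2, h3⟩ := hX x hx
    exact ⟨D, h1, h2, fun a ha b hb hab => hgood x _ a b hab (h3 a ha b hb (by omega))⟩

end Pool.Agent.Results.MP_678834_nt.CliquesOfDifferences
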