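import Mathlib
import Pool.Agent.T9h56.HL.Sets

set_option autoImplicit false

/-!
# Every set of `(1/2 + η) log x / ε` integers contains two with the predicted number of prime pairs

Let `S(d) = 𝔖(d)` for even `d`, `S(d) = 0` for odd `d`, and `π₂(x, d)` the number of primes `p ≤ x` with `p - d` prime.
For every `η > 0` and `C` the following holds for all large `x`.

1. For all `H ≤ (log x)^C` and all real numbers `c_1, ..., c_H`, the sums being over the ordered pairs of different
   `a, b ≤ H`,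
   `∑ c_a c_b π₂(x, |a - b|) ≥ x / (log x)² ((1 + (2 - η)/log x) ∑ c_a c_b S(|a - b|) - (1/2 + η) log x ∑ c_a²)`.
   So the symmetric matrix of the deviations `π₂(x, |a - b|) (log x)² / x - (1 + (2 - η)/log x) S(|a - b|)` (zero on the
   diagonal) has no eigenvalue below `- (1/2 + η) log x`: the deviations from the prediction of Hardy and Littlewood are
   nearly a positive definite function of the difference.
2. Let `A` be any set of positive integers `≤ (log x)^C` and let `ε ≤ 1` with
   `(ε + (2 - η)/log x) |A| ≥ (1/2 + η) log x`. Then some two elements of `A` have an even difference `d` with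
   `π₂(x, d) ≥ (1 - ε) 𝔖(d) x / (log x)²`. At the precision of the question, `ε = ε₀/(log log x)²`, this is so for all
   sets of `(1/2 + η) log x (log log x)² / ε₀` integers.
3. There is an even `d` in `[2, (log x)²]` with `π₂(x, d) (log x)² / (𝔖(d) x) ≥ 1 + (3/2 - η)/log x`, so that
   `E(x) ≥ (3/2 - η)/log x`.

Proof of 1: Cauchy-Schwarz in short blocks, with the truncated Ramanujan expansion of the primes as second factor; the
mixed sums are evaluated by the theorem of Bombieri and Vinogradov, and the level `x^(1/2 - δ)` halves the diagonal term.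
-/

namespace Pool.Agent.Results.MP_678834_nt.DifferencesOfSets

open Finset Filter Topology

/-- The twin prime constant `C₂`. -/
noncomputable def C2 : ℝ := ∏' p : {p : ℕ // p.Prime ∧ 2 < p}, (1 - 1 / (((p.1 : ℕ) : ℝ) - 1) ^ 2)

open Classical in
/-- `𝔖(d) = 2 C₂ ∏_{p ∣ d, p ≥ 3} (p - 1) / (p - 2)` for even `d`, `𝔖(d) = 0` for odd `d`. -/
noncomputable def S (d : ℕ) : ℝ :=
  if Even d then 2 * C2 * ∏ p ∈ d.primeFactors.filter (fun p : ℕ => 2 < p), (((p : ℝ) - 1) / ((p : ℝ) - 2))
  else 0

/-- `π₂(x, d)`, the number of primes `p ≤ x` with `p - d` prime. -/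
noncomputable def pi2 (x : ℝ) (d : ℕ) : ℕ :=
  ((Icc 1 ⌊x⌋₊).filter (fun p : ℕ => p.Prime ∧ (p - d).Prime)).card

/-- `∑ c_a c_b f(|a - b|)` over the ordered pairs of different `a, b` in `{1, ..., H}` -/
noncomputable def form (H : ℕ) (c : ℕ → ℝ) (f : ℕ → ℝ) : ℝ :=
  ∑ a ∈ Icc 1 H, ∑ b ∈ Icc 1 H, if a = b then 0 else c a * c b * f ((a : ℤ) - b).natAbs

theorem result (η : ℝ) (hη : 0 < η) (hη1 : η ≤ 1) (C : ℝ) :
    ∃ X : ℝ, ∀ x : ℝ, X ≤ x →
      -- 1. the quadratic form
      (∀ H : ℕ, (H : ℝ) ≤ Real.log x ^ C → ∀ c : ℕ → ℝ,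
        x / Real.log x ^ 2 * ((1 + (2 - η) / Real.log x) * form H c S -
          (1 / 2 + η) * Real.log x * ∑ a ∈ Icc 1 H, c a ^ 2) ≤ form H c (fun d => (pi2 x d : ℝ))) ∧
      -- 2. sets of shifts
      (∀ A : Finset ℕ, (∀ a ∈ A, 1 ≤ a ∧ (a : ℝ) ≤ Real.log x ^ C) → ∀ ε : ℝ, ε ≤ 1 →
        (1 / 2 + η) * Real.log x ≤ (ε + (2 - η) / Real.log x) * A.card →
        ∃ a ∈ A, ∃ b ∈ A, b < a ∧ Even (a - b) ∧
          (1 - ε) * (S (a - b) * x / Real.log x ^ 2) ≤ (pi2 x (a - b) : ℝ)) ∧
      -- 3. the maximum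
      (∃ d : ℕ, Even d ∧ 2 ≤ d ∧ (d : ℝ) ≤ Real.log x ^ 2 ∧ 0 < S d ∧
        1 + (3 / 2 - η) / Real.log x ≤ (pi2 x d : ℝ) * Real.log x ^ 2 / (S d * x)) := by
  classical
  set K : ℕ := max 2 ⌈C⌉₊ with hK
  have hS : ∀ d, S d = Pool.Agent.T9h56.HL.Sing d := by
    intro d
    unfold S Pool.Agent.T9h56.HL.Sing
    rfl
  have hS' : S = Pool.Agent.T9h56.HL.Sing := funext hS
  have hL : Tendsto Real.log atTop atTop := Real.tendsto_log_atTop
  have hev : ∀ᶠ x : ℝ in atTop,
      (∀ H : ℕ, (H : ℝ) ≤ Real.log x ^ C → ∀ c : ℕ → ℝ,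
        x / Real.log x ^ 2 * ((1 + (2 - η) / Real.log x) * form H c S -
          (1 / 2 + η) * Real.log x * ∑ a ∈ Icc 1 H, c a ^ 2) ≤ form H c (fun d => (pi2 x d : ℝ))) ∧
      (∀ A : Finset ℕ, (∀ a ∈ A, 1 ≤ a ∧ (a : ℝ) ≤ Real.log x ^ C) → ∀ ε : ℝ, ε ≤ 1 →
        (1 / 2 + η) * Real.log x ≤ (ε + (2 - η) / Real.log x) * A.card →
        ∃ a ∈ A, ∃ b ∈ A, b < a ∧ Even (a - b) ∧
          (1 - ε) * (S (a - b) * x / Real.log x ^ 2) ≤ (pi2 x (a - b) : ℝ)) ∧
      (∃ d : ℕ, Even d ∧ 2 ≤ d ∧ (d : ℝ) ≤ Real.log x ^ 2 ∧ 0 < S d ∧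
        1 + (3 / 2 - η) / Real.log x ≤ (pi2 x d : ℝ) * Real.log x ^ 2 / (S d * x)) := by
    filter_upwards [Pool.Agent.T9h56.HL.spectral η hη hη1 K, Pool.Agent.T9h56.HL.sets η hη hη1 K,
      Pool.Agent.T9h56.HL.sets (η / 4) (by positivity) (by linarith) 2,
      hL.eventually_ge_atTop (10 / η), eventually_gt_atTop (0 : ℝ)] with x h1 h2 h3 h4 hx0
    set L := Real.log x with hLd
    have hηL : 10 ≤ η * L := by
      rw [div_le_iff₀ hη] at h4
      linarith
    have hL10 : 10 ≤ L := by nlinarith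
    have hL0 : 0 < L := by linarith
    have hpow : L ^ C ≤ L ^ K := by
      rw [← Real.rpow_natCast L K]
      refine Real.rpow_le_rpow_of_exponent_le (by linarith) ?_
      exact (Nat.le_ceil C).trans (by exact_mod_cast le_max_right _ _)
    refine ⟨fun H hH c => ?_, fun A hA ε hε1 hε => ?_, ?_⟩
    · have := h1 H (hH.trans hpow) c
      rw [hS']
      exact this
    · have hAH : A ⊆ Icc 1 ⌊L ^ K⌋₊ := by
        intro a ha
        obtain ⟨h5, h6⟩ := hA a ha
        exact mem_Icc.2 ⟨h5, Nat.le_floor (h6.trans hpow)⟩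
      have := h2 ⌊L ^ K⌋₊ (Nat.floor_le (by positivity)) A hAH ε hε1 hε
      rw [hS']
      exact this
    · set H : ℕ := ⌊L ^ 2⌋₊ with hH
      have hHl : L ^ 2 - 1 < H := Nat.sub_one_lt_floor _
      have hHu : (H : ℝ) ≤ L ^ 2 := Nat.floor_le (by positivity)
      obtain ⟨a, ha, b, hb, hab, hev, hle⟩ := h3 H hHu (Icc 1 H) (Subset.refl _)
        (-(3 / 2 - η) / L) (by
          have : 0 ≤ (3 / 2 - η) / L ∨ (3 / 2 - η) / L ≤ 0 := le_total _ _
          rw [neg_div]
          have h6 : 0 ≤ (3 / 2 - η) / L := div_nonneg (by linarith) hL0.le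
          linarith) (by
          rw [Nat.card_Icc, Nat.add_sub_cancel]
          have e1 : -(3 / 2 - η) / L + (2 - η / 4) / L = (1 / 2 + 3 * η / 4) / L := by ring
          rw [e1]
          have e2 : (1 / 2 + 3 * η / 4) / L * (L ^ 2 - 1) ≤ (1 / 2 + 3 * η / 4) / L * H :=
            mul_le_mul_of_nonneg_left hHl.le (by positivity)
          refine le_trans ?_ e2
          have e3 : (1 / 2 + 3 * η / 4) / L * (L ^ 2 - 1) =
              (1 / 2 + 3 * η / 4) * L - (1 / 2 + 3 * η / 4) / L := by
            field_simp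
          rw [e3]
          have e4 : (1 / 2 + 3 * η / 4) / L ≤ 1 := by
            rw [div_le_one hL0]
            linarith
          nlinarith)
      rw [mem_Icc] at ha hb
      have hd2 : 2 ≤ a - b := by
        obtain ⟨j, hj⟩ := hev
        omega
      have hSd : 0 < S (a - b) := by
        unfold S
        rw [if_pos hev]
        have hC2 : 0 < C2 := by
          have h5 := Pool.Agent.TH891.SG.CT_pair (d := 2) le_rfl (by decide)
          have h6 : 0 < Pool.Agent.H387R2.Uni.CT {0, 2} := by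
            rw [Pool.Agent.TH891.SG.CT_pos_iff]
            intro p hp
            rw [Pool.Agent.TH891.SG.nuT_pair hp]
            split_ifs with h7
            · exact hp.one_lt
            · rcases hp.eq_two_or_odd with h8 | h8
              · subst h8
                exact absurd (dvd_refl 2) h7
              · have := hp.two_le
                omega
          rw [h5] at h6
          have h7 : Pool.Agent.TH891.SG.SP 2 = 2 * C2 := by
            unfold Pool.Agent.TH891.SG.SP
            have h8 : (2 : ℕ).primeFactors.filter (fun p : ℕ => 2 < p) = ∅ := by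
              rw [Nat.Prime.primeFactors Nat.prime_two, filter_singleton, if_neg (lt_irrefl 2)]
            rw [h8, prod_empty, mul_one]
            rfl
          rw [h7] at h6
          linarith
        have hprod : 0 < ∏ p ∈ (a - b).primeFactors.filter (fun p : ℕ => 2 < p),
            (((p : ℝ) - 1) / ((p : ℝ) - 2)) := by
          refine prod_pos fun p hp => ?_
          rw [mem_filter] at hp
          have h9 : (3 : ℝ) ≤ p := by exact_mod_cast hp.2
          exact div_pos (by linarith) (by linarith)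
        positivity
      refine ⟨a - b, hev, hd2, ?_, hSd, ?_⟩
      · refine le_trans ?_ hHu
        exact_mod_cast (by omega : a - b ≤ H)
      · rw [le_div_iff₀ (by positivity)]
        rw [← hS] at hle
        have e1 : (1 - -(3 / 2 - η) / L) = 1 + (3 / 2 - η) / L := by ring
        rw [e1] at hle
        have e2 : (1 + (3 / 2 - η) / L) * (S (a - b) * x / L ^ 2) =
            (1 + (3 / 2 - η) / L) * (S (a - b) * x) / L ^ 2 := by ring
        rw [e2, div_le_iff₀ (by positivity)] at hle
        exact hle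
  obtain ⟨X, hX⟩ := eventually_atTop.1 hev
  exact ⟨X, fun x hx => hX x hx⟩

end Pool.Agent.Results.MP_678834_nt.DifferencesOfSets
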