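import Mathlib
import Pool.Agent.T9h56.HL.JointThm

set_option autoImplicit false

/-!
# Several differences at once: lower bounds for products of numbers of prime pairs

Let `S(d) = 𝔖(d)` for even `d`, `S(d) = 0` for odd `d`, and `π₂(x, d)` the number of primes `p ≤ x` with `p - d` prime.
Let `k ≥ 1`, `0 < η ≤ 1` and `C` be given and let `x` be large.

Let `φ_1, ..., φ_k` be `k` lists of `n` different positive integers `≤ (log x)^C` (the `a`-th entries are `φ_i(a)`).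

1. For all real numbers `c_1, ..., c_n`, the sums being over the ordered pairs of different `a, b ≤ n`,
   `∑ c_a c_b ∏_i π₂(x, |φ_i(a) - φ_i(b)|) ≥
     (x/(log x)²)^k ((1 + (2 - η)/log x)^k ∑ c_a c_b ∏_i S(|φ_i(a) - φ_i(b)|) - ((1/2 + η) log x)^k ∑ c_a²)`.
2. If `0 < ε ≤ 1` and `ε n ≥ ((1/2 + η) log x)^k`, there are `a ≠ b` for which all the differences
   `d_i = |φ_i(a) - φ_i(b)|` are even and `∏_i π₂(x, d_i) ≥ (1 - ε) ∏_i 𝔖(d_i) x/(log x)²`.
3. Multiples: for all `ε` with `1/log x ≤ ε ≤ 1` there is an even `d > 0` with `d ≤ ((1/2 + η) log x)^k / ε` and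
   `∏_{j ≤ k} π₂(x, j d) ≥ (1 - ε) ∏_{j ≤ k} 𝔖(j d) x/(log x)²`.

So the geometric mean of the quotients `π₂(x, j d) (log x)² / (𝔖(j d) x)`, `j ≤ k`, is at least `(1 - ε)^(1/k)` for some
small `d`, at every precision `ε ≥ 1/log x`. For `k = 1` this is `DifferencesOfSets`.

Proof: the kernels `π₂(x, |φ_i(a) - φ_i(b)|) (log x)²/x`, with `(1/2 + η) log x` on the diagonal, are larger than those of the
singular series in the order of quadratic forms, by the truncated Ramanujan expansion and the theorem of Bombieri and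
Vinogradov; by Schur's product theorem the same is true for the products of the entries.
-/

namespace Pool.Agent.Results.MP_678834_nt.ProductsOfPairCounts

open Finset Filter Topology

/-- The twin prime constant `C₂`. -/
noncomputable def C2 : ℝ := ∏' p : {p : ℕ // p.Prime ∧ 2 < p}, (1 - 1 / (((p.1 : ℕ) : ℝ) - 1) ^ 2)

open Classical in
/-- `𝔖(d) = 2 C₂ ∏_{p ∣ d, p ≥ 3} (p - 1) / (p - 2)` for even `d`, `𝔖(d) = 0` for odd `d`. -/
noncomputable def S (d : ℕ) : ℝ :=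
  if Even d then 2 * C2 * ∏ p ∈ d.primeFactors.filter (fun p : ℕ => 2 < p), (((p : ℝ) - 1) / ((p : ℝ) - 2))
  else 0

/-- `π₂(x, d)`, the number of primes `p ≤ x` with `p - d` prime. -/
noncomputable def pi2 (x : ℝ) (d : ℕ) : ℕ :=
  ((Icc 1 ⌊x⌋₊).filter (fun p : ℕ => p.Prime ∧ (p - d).Prime)).card

/-- `∑ c_a c_b ∏_i f(|φ_i(a) - φ_i(b)|)` over the ordered pairs of different `a, b` -/
noncomputable def form {k n : ℕ} (φ : Fin k → Fin n → ℕ) (c : Fin n → ℝ) (f : ℕ → ℝ) : ℝ :=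
  ∑ a, ∑ b, if a = b then 0 else c a * c b * ∏ i, f ((φ i a : ℤ) - φ i b).natAbs

theorem result (k : ℕ) (hk : 1 ≤ k) (η : ℝ) (hη : 0 < η) (hη1 : η ≤ 1) (C : ℝ) :
    ∃ X : ℝ, ∀ x : ℝ, X ≤ x →
      (∀ (n : ℕ) (φ : Fin k → Fin n → ℕ), (∀ i, Function.Injective (φ i)) →
        (∀ i a, 1 ≤ φ i a ∧ (φ i a : ℝ) ≤ Real.log x ^ C) →
        -- 1. the inequality
        (∀ c : Fin n → ℝ, (x / Real.log x ^ 2) ^ k * ((1 + (2 - η) / Real.log x) ^ k * form φ c S -
          ((1 / 2 + η) * Real.log x) ^ k * ∑ a, c a ^ 2) ≤ form φ c (fun d => (pi2 x d : ℝ))) ∧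
        -- 2. two indices
        (∀ ε : ℝ, 0 < ε → ε ≤ 1 → ((1 / 2 + η) * Real.log x) ^ k ≤ ε * n →
          ∃ a b, a ≠ b ∧ (∀ i, Even ((φ i a : ℤ) - φ i b).natAbs) ∧
            (1 - ε) * ∏ i, (S ((φ i a : ℤ) - φ i b).natAbs * x / Real.log x ^ 2) ≤
              ∏ i, (pi2 x ((φ i a : ℤ) - φ i b).natAbs : ℝ))) ∧
      -- 3. multiples
      (∀ ε : ℝ, 1 / Real.log x ≤ ε → ε ≤ 1 → ∃ d : ℕ, 0 < d ∧ Even d ∧
        (d : ℝ) ≤ ((1 / 2 + η) * Real.log x) ^ k / ε ∧
        (1 - ε) * ∏ i : Fin k, (S ((i + 1) * d) * x / Real.log x ^ 2) ≤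
          ∏ i : Fin k, (pi2 x ((i + 1) * d) : ℝ)) := by
  classical
  have hS : ∀ d, S d = Pool.Agent.T9h56.HL.Sing d := by
    intro d
    unfold S Pool.Agent.T9h56.HL.Sing
    rfl
  have hS' : S = Pool.Agent.T9h56.HL.Sing := funext hS
  have hL : Tendsto Real.log atTop atTop := Real.tendsto_log_atTop
  obtain ⟨X, hX⟩ := eventually_atTop.1 ((Pool.Agent.T9h56.HL.joint k η hη hη1 ⌈C⌉₊).and
    ((Pool.Agent.T9h56.HL.joint_exists k hk η hη hη1 ⌈C⌉₊).and
      ((Pool.Agent.T9h56.HL.multiples k hk η hη hη1).and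
        ((hL.eventually_ge_atTop 1).and (eventually_gt_atTop (0 : ℝ))))))
  refine ⟨X, fun x hx => ?_⟩
  obtain ⟨h1, h2, h3, h4, h5⟩ := hX x hx
  have hpow : Real.log x ^ C ≤ Real.log x ^ ⌈C⌉₊ := by
    rw [← Real.rpow_natCast (Real.log x) ⌈C⌉₊]
    exact Real.rpow_le_rpow_of_exponent_le h4 (Nat.le_ceil C)
  have hL0 : 0 < Real.log x := by linarith
  rw [hS']
  refine ⟨fun n φ hφ hH => ⟨fun c => ?_, ?_⟩, ?_⟩
  · have h6 := (h1 n φ hφ (fun i a => ⟨(hH i a).1, (hH i a).2.trans hpow⟩)).1 c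
    have e1 : Pool.Agent.T9h56.HL.jform φ c
        (fun d => (Pool.Agent.T9h56.HL.pi2N ⌊x⌋₊ d : ℝ) * (Real.log x ^ 2 / x)) =
        (Real.log x ^ 2 / x) ^ k * form φ c (fun d => (pi2 x d : ℝ)) := by
      unfold Pool.Agent.T9h56.HL.jform form
      rw [mul_sum]
      refine sum_congr rfl fun a _ => ?_
      rw [mul_sum]
      refine sum_congr rfl fun b _ => ?_
      split_ifs
      · rw [mul_zero]
      · rw [prod_mul_distrib, prod_const, card_univ, Fintype.card_fin]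
        unfold pi2 Pool.Agent.T9h56.HL.pi2N
        ring
    have e2 : form φ c Pool.Agent.T9h56.HL.Sing = Pool.Agent.T9h56.HL.jform φ c Pool.Agent.T9h56.HL.Sing := rfl
    rw [e1] at h6
    rw [e2]
    have h7 := mul_le_mul_of_nonneg_left h6 (show 0 ≤ (x / Real.log x ^ 2) ^ k by positivity)
    have e3 : (x / Real.log x ^ 2) ^ k * ((Real.log x ^ 2 / x) ^ k * form φ c (fun d => (pi2 x d : ℝ))) =
        form φ c (fun d => (pi2 x d : ℝ)) := by
      rw [← mul_assoc, ← mul_pow]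
      have : x / Real.log x ^ 2 * (Real.log x ^ 2 / x) = 1 := by field_simp
      rw [this, one_pow, one_mul]
    rw [e3] at h7
    exact h7
  · exact h2 n φ hφ (fun i a => ⟨(hH i a).1, (hH i a).2.trans hpow⟩)
  · exact h3

end Pool.Agent.Results.MP_678834_nt.ProductsOfPairCounts
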