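import Mathlib
import Pool.Agent.T9h56.HL.Dense

set_option autoImplicit false

/-!
# A positive proportion of the m-tuples of every dense set of shifts

Let `π₂(x, d)` be the number of primes `p ≤ x` with `p - d` prime. For all `m ≥ 1` and `δ > 0` there is a `c > 0` such
that for every `C`, all large `x`, all `H ≤ (log x)^C`, all sets `A` of `β H` integers in `[1, H]` and all `0 < ε ≤ 1`
(`H`, `A`, `ε` may depend on `x`) the following holds with `ρ = c ε^(1 + δ) β^δ`. If `|A| ≥ ρ^(-(m - 1)) log x`, at least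
`ρ^(m (m - 1) / 2) |A|^m` of the vectors of `m` elements of `A` have different entries, ALL of whose differences `d` are
even with `π₂(x, d) ≥ (1 - ε) 𝔖(d) x / (log x)²`.

So the good differences have at least as many `m`-cliques in `A` as a random graph of density `ρ`, uniformly in `ε` and
`β`; for fixed `m, ε, β` and `H ≥ K log x` they make up a positive proportion of all `m`-tuples of `A`, and at the
precision `ε / (log log x)²` of the question a proportion `(log log x)^(-(1 + δ) m (m - 1))`.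

Proof: the quadratic form inequality of `DifferencesOfSets`, the sieve upper bound and Hölder's inequality with high moments
of the singular series; induction over `m` on the neighbourhoods.
-/

namespace Pool.Agent.Results.MP_678834_nt.TuplesInDenseSets

open Finset Filter Topology

/-- The twin prime constant `C₂`. -/
noncomputable def C2 : ℝ := ∏' p : {p : ℕ // p.Prime ∧ 2 < p}, (1 - 1 / (((p.1 : ℕ) : ℝ) - 1) ^ 2)

open Classical in
/-- `𝔖(d) = 2 C₂ ∏_{p ∣ d, p ≥ 3} (p - 1) / (p - 2)` for even `d`, `𝔖(d) = 0` for odd `d`. -/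
noncomputable def S (d : ℕ) : ℝ :=
  if Even d then 2 * C2 * ∏ p ∈ d.primeFactors.filter (fun p : ℕ => 2 < p), (((p : ℝ) - 1) / ((p : ℝ) - 2))
  else 0

/-- `π₂(x, d)`, the number of primes `p ≤ x` with `p - d` prime. -/
noncomputable def pi2 (x : ℝ) (d : ℕ) : ℕ :=
  ((Icc 1 ⌊x⌋₊).filter (fun p : ℕ => p.Prime ∧ (p - d).Prime)).card

/-- `d` is even and `π₂(x, d) ≥ (1 - ε) 𝔖(d) x / (log x)²` -/
def Good (x ε : ℝ) (d : ℕ) : Prop := Even d ∧ (1 - ε) * (S d * x / Real.log x ^ 2) ≤ (pi2 x d : ℝ)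

open Classical in
/-- the vectors of `m` different elements of `A`, all differences of which are good -/
noncomputable def tuples (x ε : ℝ) (A : Finset ℕ) (m : ℕ) : Finset (Fin m → ℕ) :=
  (Fintype.piFinset (fun _ : Fin m => A)).filter (fun v => Function.Injective v ∧
    ∀ i j, v j < v i → Good x ε (v i - v j))

theorem result (m : ℕ) (hm : 1 ≤ m) (δ : ℝ) (hδ : 0 < δ) : ∃ c : ℝ, 0 < c ∧ ∀ C : ℝ, ∃ X : ℝ,
    ∀ x : ℝ, X ≤ x → ∀ H : ℕ, (H : ℝ) ≤ Real.log x ^ C → ∀ A : Finset ℕ, A ⊆ Icc 1 H →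
      ∀ ε : ℝ, 0 < ε → ε ≤ 1 →
      Real.log x ≤ (c * ε ^ (1 + δ) * ((A.card : ℝ) / H) ^ δ) ^ (m - 1) * A.card →
      (c * ε ^ (1 + δ) * ((A.card : ℝ) / H) ^ δ) ^ (m.choose 2) * (A.card : ℝ) ^ m ≤
        ((tuples x ε A m).card : ℝ) := by
  classical
  have hS : ∀ d, S d = Pool.Agent.T9h56.HL.Sing d := by
    intro d
    unfold S Pool.Agent.T9h56.HL.Sing
    rfl
  have hgood : ∀ x ε : ℝ, ∀ a b : ℕ, b < a → Pool.Agent.T9h56.HL.GoodPair x ε a b → Good x ε (a - b) := by
    intro x ε a b hab h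
    obtain ⟨_, h2, h3⟩ := h
    have e : ((a : ℤ) - b).natAbs = a - b := by omega
    rw [e] at h2 h3
    refine ⟨h2, ?_⟩
    rw [hS]
    exact h3
  have hL : Tendsto Real.log atTop atTop := Real.tendsto_log_atTop
  obtain ⟨c, hc, hcl⟩ := Pool.Agent.T9h56.HL.clique_dense2 m hm δ hδ
  refine ⟨c, hc, fun C => ?_⟩
  have hev := (hcl ⌈C⌉₊).and (hL.eventually_ge_atTop 1)
  obtain ⟨X, hX⟩ := eventually_atTop.1 hev
  refine ⟨X, fun x hx H hH A hA ε hε hε1 hcond => ?_⟩
  obtain ⟨h1, h2⟩ := hX x hx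
  have hpow : Real.log x ^ C ≤ Real.log x ^ ⌈C⌉₊ := by
    rw [← Real.rpow_natCast (Real.log x) ⌈C⌉₊]
    exact Real.rpow_le_rpow_of_exponent_le h2 (Nat.le_ceil C)
  have h3 := h1 H (hH.trans hpow) A hA ε hε hε1 hcond
  refine h3.trans ?_
  have hsub : Pool.Agent.T9h56.HL.cliques (Pool.Agent.T9h56.HL.GoodPair x ε) A m ⊆ tuples x ε A m := by
    intro v hv
    rw [Pool.Agent.T9h56.HL.mem_cliques] at hv
    unfold tuples
    rw [mem_filter, Fintype.mem_piFinset]
    refine ⟨hv.1, ?_, ?_⟩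
    · intro i j hij
      by_contra hne
      exact (hv.2 i j hne).1 hij
    · intro i j hij
      exact hgood x ε _ _ hij (hv.2 i j (fun h => by rw [h] at hij; exact lt_irrefl _ hij))
  exact_mod_cast card_le_card hsub

end Pool.Agent.Results.MP_678834_nt.TuplesInDenseSets
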